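import Pool.Agent.H935R2.PS.Defs

set_option autoImplicit false

/-!
# Task B (helper36): dyadic block sums of Dirichlet kernels
-/

namespace Pool.Agent.H935R2.PS.TB

open Finset Real

/-- Abel summation for decreasing weights. -/
theorem abel (f g : ℕ → ℝ) (hg : ∀ x, |g x| ≤ 1) (n : ℕ) : ∀ a : ℕ,
    (∀ x, a ≤ x → x < a + n → 0 ≤ f x) → (∀ x, a ≤ x → x + 1 < a + n → f (x + 1) ≤ f x) →
    0 < n → |∑ x ∈ Ico a (a + n), f x * (g x - g (x + 1)) - f a * g a| ≤ f a := by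
  induction n with
  | zero => intro a _ _ h; omega
  | succ n ih =>
    intro a h0 h1 _
    have hfa : 0 ≤ f a := h0 a le_rfl (by omega)
    rw [Finset.sum_eq_sum_Ico_succ_bot (by omega : a < a + (n + 1))]
    rcases Nat.eq_zero_or_pos n with hn | hn
    · subst hn
      have : Ico (a + 1) (a + (0 + 1)) = ∅ := by simp
      rw [this, sum_empty]
      have e : f a * (g a - g (a + 1)) + 0 - f a * g a = - (f a * g (a + 1)) := by ring
      rw [e, abs_neg, abs_mul, abs_of_nonneg hfa]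
      exact mul_le_of_le_one_right hfa (hg _)
    · have hI := ih (a + 1) (fun x h2 h3 => h0 x (by omega) (by omega))
        (fun x h2 h3 => h1 x (by omega) (by omega)) hn
      have e2 : a + (n + 1) = a + 1 + n := by omega
      rw [e2]
      have hle : f (a + 1) ≤ f a := h1 a le_rfl (by omega)
      have hfa1 : 0 ≤ f (a + 1) := h0 (a + 1) (by omega) (by omega)
      set S := ∑ x ∈ Ico (a + 1) (a + 1 + n), f x * (g x - g (x + 1)) with hS
      have e : f a * (g a - g (a + 1)) + S - f a * g a =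
          (S - f (a + 1) * g (a + 1)) - (f a - f (a + 1)) * g (a + 1) := by ring
      rw [e]
      refine (abs_sub _ _).trans ?_
      rw [abs_mul, abs_of_nonneg (by linarith : 0 ≤ f a - f (a + 1))]
      have := mul_le_of_le_one_right (by linarith : 0 ≤ f a - f (a + 1)) (hg (a + 1))
      linarith

theorem abel' (f g : ℕ → ℝ) (hg : ∀ x, |g x| ≤ 1) {a b : ℕ} (hab : a < b)
    (h0 : ∀ x, a ≤ x → x < b → 0 ≤ f x) (h1 : ∀ x, a ≤ x → x + 1 < b → f (x + 1) ≤ f x) :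
    |∑ x ∈ Ico a b, f x * (g x - g (x + 1))| ≤ 2 * f a := by
  obtain ⟨n, rfl⟩ := Nat.exists_eq_add_of_le hab.le
  have h := abel f g hg n a h0 h1 (by omega)
  have hfa : 0 ≤ f a := h0 a le_rfl hab
  have h2 : |f a * g a| ≤ f a := by
    rw [abs_mul, abs_of_nonneg hfa]
    exact mul_le_of_le_one_right hfa (hg _)
  have := abs_sub_abs_le_abs_sub (∑ x ∈ Ico a (a + n), f x * (g x - g (x + 1))) (f a * g a)
  linarith

/-- the sum over the scales -/
theorem geo (s : ℝ) (hs : 0 < s) (n : ℕ) :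
    (2 ^ n * s ≤ 2 → ∑ b ∈ range n, min (2 ^ b * s) (1 / (2 ^ b * s)) ≤ 2 ^ n * s) ∧
    (2 ≤ 2 ^ n * s → ∑ b ∈ range n, min (2 ^ b * s) (1 / (2 ^ b * s)) ≤ 4 - 4 / (2 ^ n * s)) := by
  induction n with
  | zero =>
    refine ⟨fun _ => by simpa using hs.le, fun h => ?_⟩
    have h' : 2 ≤ s := by simpa using h
    simp only [range_zero, sum_empty, pow_zero, one_mul]
    have : 4 / s ≤ 2 := by rw [div_le_iff₀ hs]; linarith
    linarith
  | succ n ih =>
    rw [sum_range_succ, pow_succ]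
    obtain ⟨ih1, ih2⟩ := ih
    have hy : 0 < 2 ^ n * s := by positivity
    set y := 2 ^ n * s with hydef
    have e : 2 ^ n * 2 * s = 2 * y := by rw [hydef]; ring
    rw [e]
    constructor
    · intro h
      have h1 := ih1 (by linarith)
      have h2 : min y (1 / y) ≤ y := min_le_left _ _
      linarith
    · intro h
      have h2 : min y (1 / y) ≤ 1 / y := min_le_right _ _
      have e4 : 4 / (2 * y) = 2 * (1 / y) := by field_simp; norm_num
      rw [e4]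
      rcases le_total y 2 with h3 | h3
      · have h1 := ih1 h3
        have h5 : y + 3 * (1 / y) ≤ 4 := by
          have : y + 3 * (1 / y) = (y * y + 3) / y := by field_simp
          rw [this, div_le_iff₀ hy]
          nlinarith
        linarith
      · have h1 := ih2 h3
        have e5 : 4 / y = 4 * (1 / y) := by ring
        rw [e5] at h1
        have : 0 < 1 / y := by positivity
        linarith

theorem geo' (s : ℝ) (hs : 0 < s) (n : ℕ) :
    ∑ b ∈ range n, min (2 ^ b * s) (1 / (2 ^ b * s)) ≤ 4 := by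
  obtain ⟨h1, h2⟩ := geo s hs n
  have hy : 0 < 2 ^ n * s := by positivity
  rcases le_total (2 ^ n * s) 2 with h | h
  · linarith [h1 h]
  · have := h2 h
    have : 0 < 4 / (2 ^ n * s) := by positivity
    linarith

/-- the weights `1 / sin (π h x / q)` -/
noncomputable def fw (h q : ℕ) (x : ℕ) : ℝ := 1 / sin (π * (h * x) / q)

theorem arg_mem {h q x : ℕ} (hq : 0 < q) (hx : 2 * (h * x) ≤ q) :
    0 ≤ π * (h * x) / q ∧ π * ((h : ℝ) * x) / q ≤ π / 2 := by
  have hq' : (0 : ℝ) < q := by exact_mod_cast hq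
  refine ⟨by positivity, ?_⟩
  rw [div_le_iff₀ hq']
  have : (2 : ℝ) * (h * x) ≤ q := by exact_mod_cast hx
  nlinarith [pi_pos]

theorem sin_ge {h q x : ℕ} (hq : 0 < q) (hx : 2 * (h * x) ≤ q) :
    2 * ((h : ℝ) * x) / q ≤ sin (π * (h * x) / q) := by
  obtain ⟨h1, h2⟩ := arg_mem hq hx
  have := Real.mul_le_sin h1 h2
  refine le_trans (le_of_eq ?_) this
  field_simp

theorem sin_pos' {h q x : ℕ} (hq : 0 < q) (hh : 0 < h) (hx0 : 0 < x) (hx : 2 * (h * x) ≤ q) :
    0 < sin (π * (h * x) / q) := by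
  refine lt_of_lt_of_le ?_ (sin_ge hq hx)
  have hq' : (0 : ℝ) < q := by exact_mod_cast hq
  have hh' : (0 : ℝ) < h := by exact_mod_cast hh
  have hx' : (0 : ℝ) < x := by exact_mod_cast hx0
  positivity

theorem fw_nonneg {h q x : ℕ} (hq : 0 < q) (hh : 0 < h) (hx0 : 0 < x) (hx : 2 * (h * x) ≤ q) :
    0 ≤ fw h q x := (one_div_pos.2 (sin_pos' hq hh hx0 hx)).le

theorem fw_le {h q x : ℕ} (hq : 0 < q) (hh : 0 < h) (hx0 : 0 < x) (hx : 2 * (h * x) ≤ q) :
    fw h q x ≤ q / (2 * (h * x)) := by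
  have hq' : (0 : ℝ) < q := by exact_mod_cast hq
  have hh' : (0 : ℝ) < h := by exact_mod_cast hh
  have hx' : (0 : ℝ) < x := by exact_mod_cast hx0
  have h1 := sin_ge hq hx
  have h2 : 0 < 2 * ((h : ℝ) * x) / q := by positivity
  have := one_div_le_one_div_of_le h2 h1
  refine this.trans (le_of_eq ?_)
  field_simp

theorem fw_anti {h q x : ℕ} (hq : 0 < q) (hh : 0 < h) (hx0 : 0 < x)
    (hx : 2 * (h * (x + 1)) ≤ q) : fw h q (x + 1) ≤ fw h q x := by
  have hx1 : 2 * (h * x) ≤ q := le_trans (by nlinarith) hx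
  have hq' : (0 : ℝ) < q := by exact_mod_cast hq
  have hh' : (0 : ℝ) < h := by exact_mod_cast hh
  unfold fw
  refine one_div_le_one_div_of_le (sin_pos' hq hh hx0 hx1) ?_
  obtain ⟨h1, h2⟩ := arg_mem hq hx1
  obtain ⟨h3, h4⟩ := arg_mem (x := x + 1) hq hx
  refine sin_le_sin_of_le_of_le_pi_div_two (by linarith [pi_pos]) h4 ?_
  push_cast
  gcongr
  linarith

/-- the weighted sine sum -/
noncomputable def SS (h q A B : ℕ) (u : ℝ) : ℝ := ∑ x ∈ Ico A B, fw h q x * sin (2 * π * x * u)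

theorem SS_small {h q A B : ℕ} (hq : 0 < q) (hh : 0 < h) (hA : 0 < A)
    (hB : ∀ x, x < B → 2 * (h * x) ≤ q) (u : ℝ) :
    |SS h q A B u| ≤ ((B - A : ℕ) : ℝ) * (π * |u| * q / h) := by
  have hq' : (0 : ℝ) < q := by exact_mod_cast hq
  have hh' : (0 : ℝ) < h := by exact_mod_cast hh
  unfold SS
  refine (abs_sum_le_sum_abs _ _).trans ?_
  have : ((B - A : ℕ) : ℝ) * (π * |u| * q / h) = ∑ _x ∈ Ico A B, (π * |u| * q / h) := by
    rw [sum_const, Nat.card_Ico, nsmul_eq_mul]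
  rw [this]
  refine sum_le_sum fun x hx => ?_
  rw [mem_Ico] at hx
  have hx0 : 0 < x := lt_of_lt_of_le hA hx.1
  have hx' : (0 : ℝ) < x := by exact_mod_cast hx0
  rw [abs_mul, abs_of_nonneg (fw_nonneg hq hh hx0 (hB x hx.2))]
  have h1 := fw_le hq hh hx0 (hB x hx.2)
  have h2 : |sin (2 * π * x * u)| ≤ |2 * π * x * u| := abs_sin_le_abs
  have h3 : |2 * π * x * u| = 2 * π * x * |u| := by
    rw [abs_mul, abs_of_pos (by positivity)]
  rw [h3] at h2
  calc fw h q x * |sin (2 * π * x * u)| ≤ (q / (2 * (h * x))) * (2 * π * x * |u|) :=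
        mul_le_mul h1 h2 (abs_nonneg _) (by positivity)
    _ = π * |u| * q / h := by field_simp

theorem SS_large {h q A B : ℕ} (hq : 0 < q) (hh : 0 < h) (hA : 0 < A)
    (hB : ∀ x, x < B → 2 * (h * x) ≤ q) (u : ℝ) (hu : |u| ≤ 1 / 2) :
    |SS h q A B u| * |u| ≤ q / (4 * (h * A)) := by
  have hq' : (0 : ℝ) < q := by exact_mod_cast hq
  have hh' : (0 : ℝ) < h := by exact_mod_cast hh
  have hA' : (0 : ℝ) < A := by exact_mod_cast hA
  rcases lt_or_ge A B with hAB | hAB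
  · have h1 := abel' (fw h q) (fun x => cos (π * u * (2 * x - 1))) (fun x => abs_cos_le_one _) hAB
      (fun x h2 h3 => fw_nonneg hq hh (by omega) (hB x h3))
      (fun x h2 h3 => fw_anti hq hh (by omega) (hB (x + 1) h3))
    have h2 : ∑ x ∈ Ico A B, fw h q x * (cos (π * u * (2 * x - 1)) -
        cos (π * u * (2 * ((x + 1 : ℕ) : ℝ) - 1))) = 2 * sin (π * u) * SS h q A B u := by
      unfold SS
      rw [mul_sum]
      refine sum_congr rfl fun x _ => ?_
      have e1 : π * u * (2 * (x : ℝ) - 1) = 2 * π * x * u - π * u := by ring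
      have e2 : π * u * (2 * ((x + 1 : ℕ) : ℝ) - 1) = 2 * π * x * u + π * u := by
        push_cast; ring
      rw [e1, e2, cos_sub, cos_add]
      ring
    rw [h2] at h1
    have h3 := fw_le hq hh hA (hB A hAB)
    have h4 : 2 / π * |π * u| ≤ |sin (π * u)| := by
      apply mul_abs_le_abs_sin
      rw [abs_mul, abs_of_pos pi_pos]
      nlinarith [pi_pos]
    have h5 : 2 / π * |π * u| = 2 * |u| := by
      rw [abs_mul, abs_of_pos pi_pos]
      field_simp
    rw [h5] at h4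
    rw [abs_mul, abs_mul, abs_of_pos (by norm_num : (0 : ℝ) < 2)] at h1
    have h6 : 4 * (|SS h q A B u| * |u|) ≤ 2 * |sin (π * u)| * |SS h q A B u| := by
      nlinarith [abs_nonneg (SS h q A B u), mul_le_mul_of_nonneg_right h4 (abs_nonneg (SS h q A B u))]
    have h7 : 4 * (|SS h q A B u| * |u|) ≤ 2 * (q / (2 * (h * A))) := by linarith
    have e : (q : ℝ) / (4 * (h * A)) = (2 * (q / (2 * (h * A)))) / 4 := by field_simp
    rw [e]
    linarith
  · have : SS h q A B u = 0 := by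
      unfold SS
      rw [Ico_eq_empty_of_le hAB, sum_empty]
    rw [this, abs_zero, zero_mul]
    positivity

/-- The bound for one dyadic block. -/
theorem SS_block {h q A B d b : ℕ} (hq : 0 < q) (hh : 0 < h) (hA : 0 < A) (hd : 0 < d)
    (hAd : 2 ^ b ≤ d * A) (hBd : d * (B - A) ≤ 2 * 2 ^ b)
    (hB : ∀ x, x < B → 2 * (h * x) ≤ q) (u : ℝ) (hu : |u| ≤ 1 / 2) (hu0 : u ≠ 0) :
    |SS h q A B u| ≤ 2 * π * q / h * min (2 ^ b * (|u| / d)) (1 / (2 ^ b * (|u| / d))) := by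
  have hq' : (0 : ℝ) < q := by exact_mod_cast hq
  have hh' : (0 : ℝ) < h := by exact_mod_cast hh
  have hA' : (0 : ℝ) < A := by exact_mod_cast hA
  have hd' : (0 : ℝ) < d := by exact_mod_cast hd
  have hu' : 0 < |u| := abs_pos.2 hu0
  have hAd' : (2 : ℝ) ^ b ≤ d * A := by exact_mod_cast hAd
  have hBd' : (d : ℝ) * ((B - A : ℕ) : ℝ) ≤ 2 * 2 ^ b := by exact_mod_cast hBd
  rw [mul_min_of_nonneg _ _ (by positivity)]
  refine le_min ?_ ?_
  · refine (SS_small hq hh hA hB u).trans ?_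
    have h1 : ((B - A : ℕ) : ℝ) ≤ 2 * 2 ^ b / d := by
      rw [le_div_iff₀ hd']; linarith
    calc ((B - A : ℕ) : ℝ) * (π * |u| * q / h) ≤ (2 * 2 ^ b / d) * (π * |u| * q / h) :=
          mul_le_mul_of_nonneg_right h1 (by positivity)
      _ = 2 * π * q / h * (2 ^ b * (|u| / d)) := by field_simp
  · have h1 := SS_large hq hh hA hB u hu
    have h2 : |SS h q A B u| ≤ q / (4 * (h * A)) / |u| := by
      rwa [le_div_iff₀ hu']
    refine h2.trans ?_
    have h3 : (q : ℝ) / (4 * (h * A)) / |u| ≤ q / (4 * (h * (2 ^ b / d))) / |u| := by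
      have : (2 : ℝ) ^ b / d ≤ A := by
        rw [div_le_iff₀ hd']; linarith
      gcongr
    refine h3.trans ?_
    have e : (q : ℝ) / (4 * (h * (2 ^ b / d))) / |u| = (1 / 4) * (q / h) * (1 / (2 ^ b * (|u| / d))) := by
      field_simp
    rw [e]
    have h4 : (1 / 4 : ℝ) * (q / h) ≤ 2 * π * q / h := by
      have : 2 * π * q / h = (2 * π) * (q / h) := by ring
      rw [this]
      refine mul_le_mul_of_nonneg_right ?_ (by positivity)
      linarith [pi_gt_three]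
    exact mul_le_mul_of_nonneg_right h4 (by positivity)

/-- reduction modulo one -/
theorem sin_round (x : ℕ) (φ : ℝ) :
    sin (2 * π * x * φ) = sin (2 * π * x * (φ - round φ)) := by
  have : 2 * π * x * φ = 2 * π * x * (φ - round φ) + ((x : ℤ) * round φ : ℤ) * (2 * π) := by
    push_cast; ring
  rw [this, sin_add_int_mul_two_pi]

section G

variable {q : ℕ} [Fact q.Prime]

theorem char_eq (c : ZMod q) (z : ℤ) (j : ℕ) :
    ZMod.stdAddChar (((z : ℤ) : ZMod q) * ((j : ZMod q) - c)) =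
      Complex.exp ((2 * π * (z * ((j : ℝ) - c.val)) / q : ℝ) * Complex.I) := by
  have hc : ((c.val : ℤ) : ZMod q) = c := by simp
  have : ((z : ℤ) : ZMod q) * ((j : ZMod q) - c) = ((z * ((j : ℤ) - c.val) : ℤ) : ZMod q) := by
    push_cast
    rw [show ((c.val : ZMod q)) = c by simp]
  rw [this, ZMod.stdAddChar_coe]
  congr 1
  push_cast
  ring

theorem pair_eq (c : ZMod q) (z : ℤ) (j : ℕ) :
    ZMod.stdAddChar (((z : ℤ) : ZMod q) * ((j : ZMod q) - c)) +
      ZMod.stdAddChar (((-z : ℤ) : ZMod q) * ((j : ZMod q) - c)) =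
      ((2 * cos (2 * π * (z * ((j : ℝ) - c.val)) / q) : ℝ) : ℂ) := by
  rw [char_eq, char_eq]
  have e : (2 * π * (((-z : ℤ) : ℝ) * ((j : ℝ) - c.val)) / q : ℝ) =
      -(2 * π * (z * ((j : ℝ) - c.val)) / q) := by push_cast; ring
  rw [e]
  rw [Complex.ofReal_mul, Complex.ofReal_cos, Complex.cos]
  push_cast
  ring

theorem tele (q' : ℝ) (c0 z : ℝ) (t : ℕ) :
    (∑ j ∈ Icc 1 t, 2 * cos (2 * π * (z * ((j : ℝ) - c0)) / q')) * sin (π * z / q') =
      sin (2 * π * z * ((2 * ((t : ℝ) - c0) + 1) / (2 * q'))) -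
        sin (2 * π * z * ((1 - 2 * c0) / (2 * q'))) := by
  induction t with
  | zero =>
    simp only [zero_lt_one, Icc_eq_empty_of_lt, sum_empty, zero_mul, Nat.cast_zero]
    rw [eq_comm, sub_eq_zero]
    congr 1
    ring
  | succ t ih =>
    rw [Finset.sum_Icc_succ_top (by omega), add_mul, ih]
    have e1 : 2 * π * z * ((2 * (((t + 1 : ℕ) : ℝ) - c0) + 1) / (2 * q')) =
        2 * π * (z * (((t + 1 : ℕ) : ℝ) - c0)) / q' + π * z / q' := by
      by_cases hq : q' = 0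
      · simp [hq]
      · field_simp
    have e2 : 2 * π * z * ((2 * ((t : ℝ) - c0) + 1) / (2 * q')) =
        2 * π * (z * (((t + 1 : ℕ) : ℝ) - c0)) / q' - π * z / q' := by
      by_cases hq : q' = 0
      · simp [hq]
      · push_cast
        field_simp
        ring
    rw [e1, e2, sin_add, sin_sub]
    ring

theorem G_pair (c : ZMod q) (t : ℕ) (h x : ℕ) (hh : 0 < h) (hx0 : 0 < x) (hx : 2 * (h * x) ≤ q) :
    G c t (((h * x : ℕ) : ℤ) : ZMod q) + G c t ((-((h * x : ℕ) : ℤ) : ℤ) : ZMod q) =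
      ((fw h q x * (sin (2 * π * x * (h * ((2 * ((t : ℝ) - c.val) + 1) / (2 * q)))) -
        sin (2 * π * x * (h * ((1 - 2 * (c.val : ℝ)) / (2 * q))))) : ℝ) : ℂ) := by
  have hq : 0 < q := (Fact.out : q.Prime).pos
  unfold G
  rw [← sum_add_distrib]
  simp only [pair_eq]
  rw [← Complex.ofReal_sum]
  congr 1
  have hs := sin_pos' hq hh hx0 hx
  have h1 := tele (q : ℝ) (c.val : ℝ) ((h * x : ℕ) : ℝ) t
  have e0 : π * ((h * x : ℕ) : ℝ) / q = π * (h * x) / q := by push_cast; ring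
  rw [e0] at h1
  unfold fw
  rw [one_div, eq_comm, inv_mul_eq_iff_eq_mul₀ hs.ne', eq_comm, mul_comm]
  have e1 : 2 * π * (x : ℝ) * (h * ((2 * ((t : ℝ) - c.val) + 1) / (2 * q))) =
      2 * π * ((h * x : ℕ) : ℝ) * ((2 * ((t : ℝ) - c.val) + 1) / (2 * q)) := by push_cast; ring
  have e2 : 2 * π * (x : ℝ) * (h * ((1 - 2 * (c.val : ℝ)) / (2 * q))) =
      2 * π * ((h * x : ℕ) : ℝ) * ((1 - 2 * (c.val : ℝ)) / (2 * q)) := by push_cast; ring
  rw [e1, e2, ← h1]
  rfl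

end G

/-- lower end of the block -/
def bA (d b : ℕ) : ℕ := (2 ^ b + d - 1) / d

/-- upper end of the block -/
def bB (q h d b : ℕ) : ℕ := min ((2 * 2 ^ b - 1) / d) ((q - 1) / 2 / h) + 1

theorem bA_pos {d b : ℕ} (hd : 0 < d) : 0 < bA d b := by
  unfold bA
  have : 0 < 2 ^ b := by positivity
  exact Nat.div_pos (by omega) hd

theorem bA_le {d b x : ℕ} (hd : 0 < d) : bA d b ≤ x ↔ 2 ^ b ≤ d * x := by
  unfold bA
  have h2 : 0 < 2 ^ b := by positivity
  rw [← Nat.lt_succ_iff, Nat.div_lt_iff_lt_mul hd, Nat.succ_eq_add_one]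
  have : (x + 1) * d = d * x + d := by ring
  rw [this]
  omega

theorem lt_bB {q h d b x : ℕ} (hd : 0 < d) (hh : 0 < h) :
    x < bB q h d b ↔ d * x < 2 * 2 ^ b ∧ h * x ≤ (q - 1) / 2 := by
  unfold bB
  have h2 : 0 < 2 ^ b := by positivity
  rw [Nat.lt_succ_iff, le_min_iff, Nat.le_div_iff_mul_le hd, Nat.le_div_iff_mul_le hh,
    mul_comm x d, mul_comm x h]
  constructor
  · rintro ⟨h3, h4⟩; exact ⟨by omega, h4⟩
  · rintro ⟨h3, h4⟩; exact ⟨by omega, h4⟩

theorem bB_sub {q h d b : ℕ} (hd : 0 < d) (hh : 0 < h) :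
    d * (bB q h d b - bA d b) ≤ 2 * 2 ^ b := by
  have h1 := bA_pos (b := b) hd
  have h2 : bB q h d b - bA d b ≤ bB q h d b - 1 := by omega
  rcases Nat.eq_zero_or_pos (bB q h d b) with h0 | h0
  · rw [h0]; simp
  · have h3 := (lt_bB (q := q) (h := h) (d := d) (b := b) (x := bB q h d b - 1) hd hh).1 (by omega)
    exact (Nat.mul_le_mul_left d h2).trans h3.1.le

theorem hB' {q h d b x : ℕ} (hd : 0 < d) (hh : 0 < h) (hx : x < bB q h d b) :
    2 * (h * x) ≤ q := by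
  have := ((lt_bB hd hh).1 hx).2
  omega

theorem SS_sum {h q d : ℕ} (hq : 0 < q) (hh : 0 < h) (hd : 0 < d) (n : ℕ) (u : ℝ)
    (hu : |u| ≤ 1 / 2) :
    ∑ b ∈ range n, |SS h q (bA d b) (bB q h d b) u| ≤ 8 * π * q / h := by
  have hq' : (0 : ℝ) < q := by exact_mod_cast hq
  have hh' : (0 : ℝ) < h := by exact_mod_cast hh
  have hd' : (0 : ℝ) < d := by exact_mod_cast hd
  by_cases hu0 : u = 0
  · subst hu0
    have : ∀ b ∈ range n, |SS h q (bA d b) (bB q h d b) 0| = 0 := by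
      intro b _
      unfold SS
      simp
    rw [sum_congr rfl this, sum_const_zero]
    positivity
  · calc ∑ b ∈ range n, |SS h q (bA d b) (bB q h d b) u|
        ≤ ∑ b ∈ range n, 2 * π * q / h * min (2 ^ b * (|u| / d)) (1 / (2 ^ b * (|u| / d))) := by
          refine sum_le_sum fun b _ => ?_
          exact SS_block hq hh (bA_pos hd) hd ((bA_le hd).1 le_rfl) (bB_sub hd hh)
            (fun x hx => hB' hd hh hx) u hu hu0
      _ = 2 * π * q / h * ∑ b ∈ range n, min (2 ^ b * (|u| / d)) (1 / (2 ^ b * (|u| / d))) := by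
          rw [mul_sum]
      _ ≤ 2 * π * q / h * 4 := by
          refine mul_le_mul_of_nonneg_left (geo' _ ?_ n) (by positivity)
          have := abs_pos.2 hu0
          positivity
      _ = 8 * π * q / h := by ring

theorem mem_block {q g d b x : ℕ} (hg : 0 < g) (hd : 0 < d) :
    x ∈ Ico (bA d b) (bB q (g * d) d b) ↔
      0 < x ∧ Nat.log 2 (g * d * x / g) = b ∧ g * d * x ≤ (q - 1) / 2 := by
  have hh : 0 < g * d := Nat.mul_pos hg hd
  rw [mem_Ico, bA_le hd, lt_bB hd hh]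
  have e : g * d * x / g = d * x := by
    rw [mul_assoc, Nat.mul_div_cancel_left _ hg]
  rw [e]
  constructor
  · rintro ⟨h1, h2, h3⟩
    have h0 : 0 < d * x := lt_of_lt_of_le (by positivity) h1
    refine ⟨Nat.pos_of_mul_pos_left h0, ?_, h3⟩
    rw [Nat.log_eq_iff (Or.inr ⟨by norm_num, h0.ne'⟩)]
    exact ⟨h1, by rw [pow_succ]; omega⟩
  · rintro ⟨h0, h1, h3⟩
    have h0' : d * x ≠ 0 := (Nat.mul_pos hd h0).ne'
    rw [Nat.log_eq_iff (Or.inr ⟨by norm_num, h0'⟩), pow_succ] at h1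
    exact ⟨h1.1, by omega, h3⟩

theorem block_set {q g d b : ℕ} (hg : 0 < g) (hd : 0 < d) :
    (Icc (-(((q - 1) / 2 : ℕ) : ℤ)) (((q - 1) / 2 : ℕ) : ℤ)).filter
      (fun z => z ≠ 0 ∧ ((g * d : ℕ) : ℤ) ∣ z ∧ Nat.log 2 (z.natAbs / g) = b) =
    (Ico (bA d b) (bB q (g * d) d b)).image (fun x => ((g * d * x : ℕ) : ℤ)) ∪
    (Ico (bA d b) (bB q (g * d) d b)).image (fun x => (-((g * d * x : ℕ) : ℤ) : ℤ)) := by
  have hh : 0 < g * d := Nat.mul_pos hg hd
  ext z
  simp only [mem_filter, mem_Icc, mem_union, mem_image, mem_block hg hd]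
  constructor
  · rintro ⟨⟨hz1, hz2⟩, hz0, ⟨k, hk⟩, hlog⟩
    have hna : z.natAbs = g * d * k.natAbs := by
      rw [hk, Int.natAbs_mul, Int.natAbs_natCast]
    rw [hna] at hlog
    have hk0 : 0 < k.natAbs := by
      rcases Nat.eq_zero_or_pos k.natAbs with h | h
      · rw [Int.natAbs_eq_zero] at h
        rw [h, mul_zero] at hk
        exact absurd hk hz0
      · exact h
    have hle : g * d * k.natAbs ≤ (q - 1) / 2 := by
      rw [← hna]; omega
    rcases le_total 0 z with h | h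
    · left
      refine ⟨k.natAbs, ⟨hk0, hlog, hle⟩, ?_⟩
      rw [← hna]; omega
    · right
      refine ⟨k.natAbs, ⟨hk0, hlog, hle⟩, ?_⟩
      rw [← hna]; omega
  · rintro (⟨x, ⟨h0, h1, h2⟩, rfl⟩ | ⟨x, ⟨h0, h1, h2⟩, rfl⟩)
    · have hp : 0 < g * d * x := Nat.mul_pos hh h0
      refine ⟨⟨by omega, by exact_mod_cast h2⟩, by exact_mod_cast hp.ne', ?_, ?_⟩
      · exact ⟨(x : ℤ), by push_cast; ring⟩
      · rw [Int.natAbs_natCast]; exact h1
    · have hp : 0 < g * d * x := Nat.mul_pos hh h0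
      refine ⟨⟨by omega, by omega⟩, by omega, ?_, ?_⟩
      · exact ⟨-(x : ℤ), by push_cast; ring⟩
      · rw [Int.natAbs_neg, Int.natAbs_natCast]; exact h1

theorem block_sum {q g d b : ℕ} (hg : 0 < g) (hd : 0 < d) (F : ℤ → ℂ) :
    ∑ z ∈ (Icc (-(((q - 1) / 2 : ℕ) : ℤ)) (((q - 1) / 2 : ℕ) : ℤ)).filter
      (fun z => z ≠ 0 ∧ ((g * d : ℕ) : ℤ) ∣ z ∧ Nat.log 2 (z.natAbs / g) = b), F z =
    ∑ x ∈ Ico (bA d b) (bB q (g * d) d b), (F ((g * d * x : ℕ) : ℤ) + F (-((g * d * x : ℕ) : ℤ))) := by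
  have hh : 0 < g * d := Nat.mul_pos hg hd
  rw [block_set hg hd, sum_union, sum_image, sum_image, sum_add_distrib]
  · intro x _ y _ hxy
    simp only [neg_inj, Nat.cast_inj] at hxy
    exact Nat.eq_of_mul_eq_mul_left hh hxy
  · intro x _ y _ hxy
    simp only [Nat.cast_inj] at hxy
    exact Nat.eq_of_mul_eq_mul_left hh hxy
  · rw [disjoint_left]
    intro z h1 h2
    rw [mem_image] at h1 h2
    obtain ⟨x, hx, rfl⟩ := h1
    obtain ⟨y, hy, hxy⟩ := h2
    rw [mem_block hg hd] at hx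
    have := Nat.mul_pos hh hx.1
    omega

theorem norm_block {q : ℕ} [Fact q.Prime] (c : ZMod q) (t : ℕ) {g d : ℕ} (hg : 0 < g) (hd : 0 < d)
    (b : ℕ) :
    ‖∑ z ∈ (Icc (-(((q - 1) / 2 : ℕ) : ℤ)) (((q - 1) / 2 : ℕ) : ℤ)).filter
      (fun z => z ≠ 0 ∧ ((g * d : ℕ) : ℤ) ∣ z ∧ Nat.log 2 (z.natAbs / g) = b), G c t (z : ZMod q)‖ ≤
    |SS (g * d) q (bA d b) (bB q (g * d) d b)
      (((g * d : ℕ) : ℝ) * ((2 * ((t : ℝ) - c.val) + 1) / (2 * q)) -
        round (((g * d : ℕ) : ℝ) * ((2 * ((t : ℝ) - c.val) + 1) / (2 * q))))| +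
    |SS (g * d) q (bA d b) (bB q (g * d) d b)
      (((g * d : ℕ) : ℝ) * ((1 - 2 * (c.val : ℝ)) / (2 * q)) -
        round (((g * d : ℕ) : ℝ) * ((1 - 2 * (c.val : ℝ)) / (2 * q))))| := by
  have hh : 0 < g * d := Nat.mul_pos hg hd
  have hq : 0 < q := (Fact.out : q.Prime).pos
  rw [block_sum hg hd (fun z => G c t (z : ZMod q))]
  have h1 : ∑ x ∈ Ico (bA d b) (bB q (g * d) d b),
      (G c t ((((g * d * x : ℕ) : ℤ)) : ZMod q) + G c t ((-((g * d * x : ℕ) : ℤ) : ℤ) : ZMod q)) =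
      (((SS (g * d) q (bA d b) (bB q (g * d) d b)
      (((g * d : ℕ) : ℝ) * ((2 * ((t : ℝ) - c.val) + 1) / (2 * q)) -
        round (((g * d : ℕ) : ℝ) * ((2 * ((t : ℝ) - c.val) + 1) / (2 * q))))) -
    (SS (g * d) q (bA d b) (bB q (g * d) d b)
      (((g * d : ℕ) : ℝ) * ((1 - 2 * (c.val : ℝ)) / (2 * q)) -
        round (((g * d : ℕ) : ℝ) * ((1 - 2 * (c.val : ℝ)) / (2 * q))))) : ℝ) : ℂ) := by
    unfold SS
    rw [← sum_sub_distrib, Complex.ofReal_sum]
    refine sum_congr rfl fun x hx => ?_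
    have hx1 : 0 < x := lt_of_lt_of_le (bA_pos hd) (mem_Ico.1 hx).1
    rw [G_pair c t (g * d) x hh hx1 (hB' hd hh (mem_Ico.1 hx).2)]
    congr 1
    rw [← sin_round, ← sin_round]
    ring
  rw [h1, Complex.norm_real, Real.norm_eq_abs]
  exact abs_sub _ _

end Pool.Agent.H935R2.PS.TB

namespace Pool.Agent.H935R2.PS

open Finset

open Classical in
/-- Block sums of the geometric sums over multiples of `g * d`. -/
theorem kernel : ∃ C : ℝ, 0 < C ∧ ∀ q : ℕ, ∀ hq : Fact q.Prime, 3 ≤ q → ∀ (c : ZMod q) (t : ℕ), t < q →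
    ∀ g d : ℕ, 1 ≤ g → 1 ≤ d →
    ∑ b ∈ range (La q + 1), ‖∑ z ∈ (Icc (-(((q - 1) / 2 : ℕ) : ℤ)) (((q - 1) / 2 : ℕ) : ℤ)).filter
      (fun z => z ≠ 0 ∧ ((g * d : ℕ) : ℤ) ∣ z ∧ Nat.log 2 (z.natAbs / g) = b), G c t (z : ZMod q)‖
      ≤ C * q / (g * d) := by
  refine ⟨16 * Real.pi, by positivity, ?_⟩
  intro q hq h3 c t ht g d hg hd
  have hq0 : 0 < q := hq.out.pos
  have hh : 0 < g * d := Nat.mul_pos hg hd
  have h1 : ∀ b ∈ range (La q + 1), ‖∑ z ∈ (Icc (-(((q - 1) / 2 : ℕ) : ℤ))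
      (((q - 1) / 2 : ℕ) : ℤ)).filter (fun z => z ≠ 0 ∧ ((g * d : ℕ) : ℤ) ∣ z ∧
        Nat.log 2 (z.natAbs / g) = b), G c t (z : ZMod q)‖ ≤ _ := fun b _ => by
    convert TB.norm_block c t hg hd b
  refine (sum_le_sum h1).trans ?_
  rw [sum_add_distrib]
  have h2 := TB.SS_sum hq0 hh hd (La q + 1)
    (((g * d : ℕ) : ℝ) * ((2 * ((t : ℝ) - c.val) + 1) / (2 * q)) -
        round (((g * d : ℕ) : ℝ) * ((2 * ((t : ℝ) - c.val) + 1) / (2 * q)))) (abs_sub_round _)
  have h3 := TB.SS_sum hq0 hh hd (La q + 1)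
    (((g * d : ℕ) : ℝ) * ((1 - 2 * (c.val : ℝ)) / (2 * q)) -
        round (((g * d : ℕ) : ℝ) * ((1 - 2 * (c.val : ℝ)) / (2 * q)))) (abs_sub_round _)
  refine (add_le_add h2 h3).trans (le_of_eq ?_)
  push_cast
  ring

end Pool.Agent.H935R2.PS
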