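import Pool.Agent.H36R2.PS.B

set_option autoImplicit false

/-!
# Task C3 (helper36): the main sum, three coordinates
-/

namespace Pool.Agent.H935R2.PS.TC3

open Finset

theorem sum_mu (m : ℕ) :
    ∑ d ∈ m.divisors, ((ArithmeticFunction.moebius d : ℤ) : ℂ) = if m = 1 then 1 else 0 := by
  have h := congrArg (fun f : ArithmeticFunction ℤ => f m) ArithmeticFunction.coe_zeta_mul_moebius
  simp only [ArithmeticFunction.coe_zeta_mul_apply, ArithmeticFunction.one_apply] at h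
  have h2 : ((∑ d ∈ m.divisors, ArithmeticFunction.moebius d : ℤ) : ℂ) =
      ((if m = 1 then 1 else 0 : ℤ) : ℂ) := by rw [h]
  rw [Int.cast_sum] at h2
  rw [h2]
  split_ifs <;> simp

theorem inner (q m : ℕ) (hm : 1 ≤ m) (hmq : m ≤ q) (a : ℂ) :
    ∑ d ∈ Icc 1 q, (if d ∣ m then ((ArithmeticFunction.moebius d : ℤ) : ℂ) * a else 0) =
      if m = 1 then a else 0 := by
  rw [← sum_filter]
  have e : (Icc 1 q).filter (fun d => d ∣ m) = m.divisors := by
    ext d
    simp only [mem_filter, mem_Icc, Nat.mem_divisors]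
    constructor
    · rintro ⟨_, h⟩; exact ⟨h, by omega⟩
    · rintro ⟨h, _⟩
      have h1 := Nat.le_of_dvd (by omega) h
      have h2 := Nat.pos_of_dvd_of_pos h (by omega)
      exact ⟨⟨h2, by omega⟩, h⟩
  rw [e, ← sum_mul, sum_mu m]
  split_ifs <;> simp

theorem mob (f : ℕ → ℂ) (q γ : ℕ) (h1 : 1 ≤ γ) (hq : γ ≤ q) :
    ∑ g ∈ Icc 1 q, ∑ d ∈ Icc 1 q,
      (if g * d ∣ γ then ((ArithmeticFunction.moebius d : ℤ) : ℂ) * f g else 0) = f γ := by
  rw [sum_eq_single γ]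
  · have h2 : ∀ d ∈ Icc 1 q, (if γ * d ∣ γ then ((ArithmeticFunction.moebius d : ℤ) : ℂ) * f γ else 0) =
        (if d ∣ 1 then ((ArithmeticFunction.moebius d : ℤ) : ℂ) * f γ else 0) := by
      intro d _
      have : γ * d ∣ γ ↔ d ∣ 1 := by
        conv_lhs => rw [← mul_one γ, mul_assoc, one_mul]
        exact Nat.mul_dvd_mul_iff_left (by omega)
      simp only [this]
    rw [sum_congr rfl h2, inner q 1 le_rfl (by omega)]
    simp
  · intro g hg hne
    rw [mem_Icc] at hg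
    by_cases hd : g ∣ γ
    · obtain ⟨m, rfl⟩ := hd
      have hm : 1 ≤ m := Nat.pos_of_ne_zero (by rintro rfl; simp at h1)
      have h2 : ∀ d ∈ Icc 1 q,
          (if g * d ∣ g * m then ((ArithmeticFunction.moebius d : ℤ) : ℂ) * f g else 0) =
          (if d ∣ m then ((ArithmeticFunction.moebius d : ℤ) : ℂ) * f g else 0) := by
        intro d _
        have : g * d ∣ g * m ↔ d ∣ m := Nat.mul_dvd_mul_iff_left (by omega)
        simp only [this]
      rw [sum_congr rfl h2, inner q m hm (le_trans (Nat.le_mul_of_pos_left m (by omega)) hq),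
        if_neg]
      rintro rfl
      simp at hne
    · refine sum_eq_zero fun d _ => ?_
      rw [if_neg]
      exact fun h => hd (dvd_of_mul_right_dvd h)
  · intro h
    exact absurd (mem_Icc.2 ⟨h1, hq⟩) h

open Classical in
/-- Decomposition into boxes. -/
theorem boxes {ι X : Type} [Fintype ι] [DecidableEq ι] [Fintype X] (W : Finset X) (lab : X → ℕ) (R : Finset ℕ)
    (hR : ∀ x ∈ W, lab x ∈ R) (F : ι → X → ℂ) (B : (ι → ℕ) → Prop) :
    ‖∑ v ∈ (univ : Finset (ι → X)).filter (fun v => (∀ j, v j ∈ W) ∧ B (fun j => lab (v j))),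
      ∏ j, F j (v j)‖ ≤ ∏ j, ∑ b ∈ R, ‖∑ x ∈ W.filter (fun x => lab x = b), F j x‖ := by
  have h1 : ∑ v ∈ (univ : Finset (ι → X)).filter (fun v => (∀ j, v j ∈ W) ∧ B (fun j => lab (v j))),
      ∏ j, F j (v j) = ∑ b ∈ (Fintype.piFinset fun _ : ι => R).filter B,
        ∑ v ∈ Fintype.piFinset (fun j => W.filter (fun x => lab x = b j)), ∏ j, F j (v j) := by
    rw [← sum_fiberwise_of_maps_to (t := (Fintype.piFinset fun _ : ι => R).filter B)
      (g := fun v : ι → X => fun j => lab (v j))]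
    · refine sum_congr rfl fun b hb => ?_
      refine sum_congr ?_ fun _ _ => rfl
      ext v
      simp only [mem_filter, mem_univ, true_and, Fintype.mem_piFinset]
      constructor
      · rintro ⟨⟨h2, _⟩, h3⟩ j
        exact ⟨h2 j, congrFun h3 j⟩
      · intro h
        have e : (fun j => lab (v j)) = b := funext fun j => (h j).2
        refine ⟨⟨fun j => (h j).1, ?_⟩, e⟩
        rw [e]
        exact (mem_filter.1 hb).2
    · intro v hv
      simp only [mem_filter, mem_univ, true_and, Fintype.mem_piFinset] at hv ⊢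
      exact ⟨fun j => hR _ (hv.1 j), hv.2⟩
  rw [h1]
  have h2 : ∀ b : ι → ℕ, ∑ v ∈ Fintype.piFinset (fun j => W.filter (fun x => lab x = b j)),
      ∏ j, F j (v j) = ∏ j, ∑ x ∈ W.filter (fun x => lab x = b j), F j x := fun b => by
    rw [prod_univ_sum]
  simp only [h2]
  refine (norm_sum_le _ _).trans ?_
  have h3 : ∏ j, ∑ b ∈ R, ‖∑ x ∈ W.filter (fun x => lab x = b), F j x‖ =
      ∑ b ∈ Fintype.piFinset (fun _ : ι => R), ∏ j, ‖∑ x ∈ W.filter (fun x => lab x = b j), F j x‖ := by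
    rw [prod_univ_sum]
  rw [h3]
  refine (sum_le_sum_of_subset_of_nonneg (filter_subset _ _) fun b _ _ => norm_nonneg _).trans ?_
  refine sum_le_sum fun b _ => ?_
  rw [norm_prod]

open Classical in
/-- the kernel bound in terms of residues -/
theorem kernel_res {q : ℕ} [Fact q.Prime] (h3 : 3 ≤ q) (c : ZMod q) (t : ℕ) (g d b : ℕ) :
    ∑ z ∈ (Icc (-(((q - 1) / 2 : ℕ) : ℤ)) (((q - 1) / 2 : ℕ) : ℤ)).filter
      (fun z => z ≠ 0 ∧ ((g * d : ℕ) : ℤ) ∣ z ∧ Nat.log 2 (z.natAbs / g) = b), G c t (z : ZMod q) =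
    ∑ x ∈ ((univ : Finset (ZMod q)).filter (fun x => x ≠ 0 ∧ g * d ∣ nn x)).filter
      (fun x => Nat.log 2 (nn x / g) = b), G c t x := by
  have hq : q.Prime := Fact.out
  have hodd : q % 2 = 1 := by
    rcases hq.eq_two_or_odd with h | h
    · omega
    · exact h
  have hval : ∀ z : ℤ, -(((q - 1) / 2 : ℕ) : ℤ) ≤ z → z ≤ (((q - 1) / 2 : ℕ) : ℤ) →
      ((z : ZMod q)).valMinAbs = z := by
    intro z h1 h2
    rw [ZMod.valMinAbs_spec]
    refine ⟨rfl, ?_, ?_⟩ <;> omega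
  refine sum_nbij' (fun z : ℤ => (z : ZMod q)) (fun x => x.valMinAbs) ?_ ?_ ?_ ?_ ?_
  · intro z hz
    simp only [mem_filter, mem_Icc, mem_univ, true_and] at hz ⊢
    obtain ⟨⟨h1, h2⟩, h4, h5, h6⟩ := hz
    have hv := hval z h1 h2
    have hn : nn (z : ZMod q) = z.natAbs := by unfold nn; rw [hv]
    refine ⟨⟨?_, ?_⟩, ?_⟩
    · intro h0
      rw [h0, ZMod.valMinAbs_zero] at hv
      exact h4 hv.symm
    · rw [hn]
      exact Int.natCast_dvd.1 h5
    · rw [hn]; exact h6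
  · intro x hx
    simp only [mem_filter, mem_Icc, mem_univ, true_and] at hx ⊢
    obtain ⟨⟨h1, h2⟩, h4⟩ := hx
    have h5 := ZMod.natAbs_valMinAbs_le x
    refine ⟨⟨by omega, by omega⟩, ?_, ?_, h4⟩
    · intro h0
      rw [ZMod.valMinAbs_eq_zero] at h0
      exact h1 h0
    · exact Int.natCast_dvd.2 h2
  · intro z hz
    simp only [mem_filter, mem_Icc] at hz
    exact hval z hz.1.1 hz.1.2
  · intro x _
    exact ZMod.coe_valMinAbs x
  · intro z _
    rfl

theorem nn_pos {q : ℕ} [Fact q.Prime] {x : ZMod q} (hx : x ≠ 0) : 1 ≤ nn x := by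
  unfold nn
  rw [Nat.one_le_iff_ne_zero, Int.natAbs_ne_zero]
  intro h
  rw [ZMod.valMinAbs_eq_zero] at h
  exact hx h

theorem nn_le_q {q : ℕ} [Fact q.Prime] (x : ZMod q) : nn x ≤ q := by
  have := ZMod.natAbs_valMinAbs_le x
  unfold nn
  omega

/-- `∑ 1/g³ ≤ 2` -/
theorem cube_sum (n : ℕ) : ∑ g ∈ Icc 1 n, (1 : ℝ) / (g : ℝ) ^ 3 ≤ 2 := by
  suffices h : ∀ n : ℕ, ∑ g ∈ Icc 1 (n + 1), (1 : ℝ) / (g : ℝ) ^ 3 ≤ 2 - 1 / ((n : ℝ) + 1) by
    rcases Nat.eq_zero_or_pos n with hn | hn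
    · subst hn; simp
    · obtain ⟨m, rfl⟩ := Nat.exists_eq_add_of_le hn
      rw [add_comm 1 m]
      have := h m
      have h2 : (0 : ℝ) < 1 / ((m : ℝ) + 1) := by positivity
      linarith
  intro n
  induction n with
  | zero => norm_num
  | succ n ih =>
    rw [Finset.sum_Icc_succ_top (by omega)]
    have h2 : (1 : ℝ) / (((n + 1 + 1 : ℕ) : ℝ)) ^ 3 ≤ 1 / ((n : ℝ) + 1) - 1 / (((n + 1 : ℕ) : ℝ) + 1) := by
      push_cast
      have hx : (0 : ℝ) < (n : ℝ) + 1 := by positivity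
      have e : 1 / ((n : ℝ) + 1) - 1 / ((n : ℝ) + 1 + 1) = 1 / (((n : ℝ) + 1) * ((n : ℝ) + 1 + 1)) := by
        field_simp
        ring
      rw [e]
      apply one_div_le_one_div_of_le (by positivity)
      have h3 : (0 : ℝ) ≤ n := by positivity
      nlinarith [mul_nonneg h3 h3, mul_nonneg (mul_nonneg h3 h3) h3]
    linarith

end Pool.Agent.H935R2.PS.TC3

namespace Pool.Agent.H935R2.PS

open Finset

open Classical in
/-- three coordinates, arbitrary set `B` of dyadic boxes -/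
theorem main3 : ∃ C : ℝ, 0 < C ∧ ∀ q : ℕ, ∀ hq : Fact q.Prime, 3 ≤ q →
    ∀ (c : Fin 3 → ZMod q) (t : Fin 3 → ℕ), (∀ j, t j < q) → ∀ B : ℕ → ℕ → ℕ → Prop,
    ‖∑ v ∈ (univ : Finset (Fin 3 → ZMod q)).filter (fun v => (∀ j, v j ≠ 0) ∧
      B (Nat.log 2 (nn (v 0) / gv v)) (Nat.log 2 (nn (v 1) / gv v)) (Nat.log 2 (nn (v 2) / gv v))),
      G (c 0) (t 0) (v 0) * G (c 1) (t 1) (v 1) * G (c 2) (t 2) (v 2)‖ ≤ C * (q:ℝ) ^ 3 := by
  obtain ⟨K, hK, hker⟩ := kernel
  refine ⟨K ^ 3 * 4, by positivity, ?_⟩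
  intro q hq h3 c t ht B
  have hq0 : 0 < q := hq.out.pos
  obtain ⟨P, hP⟩ : ∃ P : (Fin 3 → ZMod q) → ℂ, ∀ v, P v = ∏ j, G (c j) (t j) (v j) :=
    ⟨_, fun _ => rfl⟩
  have hPe : ∀ v : Fin 3 → ZMod q, G (c 0) (t 0) (v 0) * G (c 1) (t 1) (v 1) * G (c 2) (t 2) (v 2) =
      P v := fun v => by rw [hP, Fin.prod_univ_three]
  simp only [hPe]
  obtain ⟨N, hN⟩ : ∃ N : Finset (Fin 3 → ZMod q), N = univ.filter (fun v => ∀ j, v j ≠ 0) :=
    ⟨_, rfl⟩
  obtain ⟨f, hf⟩ : ∃ f : (Fin 3 → ZMod q) → ℕ → ℂ, ∀ v g, f v g =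
    if B (Nat.log 2 (nn (v 0) / g)) (Nat.log 2 (nn (v 1) / g)) (Nat.log 2 (nn (v 2) / g)) then P v
    else 0 := ⟨_, fun _ _ => rfl⟩
  have hgv : ∀ v ∈ N, 1 ≤ gv v ∧ gv v ≤ q := by
    intro v hv
    rw [hN, mem_filter] at hv
    have h0 := TC3.nn_pos (hv.2 0)
    constructor
    · exact Nat.gcd_pos_of_pos_left _ h0
    · exact (Nat.gcd_le_left _ h0).trans (TC3.nn_le_q _)
  have step1 : ∑ v ∈ (univ : Finset (Fin 3 → ZMod q)).filter (fun v => (∀ j, v j ≠ 0) ∧
      B (Nat.log 2 (nn (v 0) / gv v)) (Nat.log 2 (nn (v 1) / gv v)) (Nat.log 2 (nn (v 2) / gv v))),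
      P v = ∑ g ∈ Icc 1 q, ∑ d ∈ Icc 1 q, ((ArithmeticFunction.moebius d : ℤ) : ℂ) *
        ∑ v ∈ N.filter (fun v => g * d ∣ gv v), f v g := by
    rw [← filter_filter, ← hN, sum_filter]
    have e1 : ∀ v ∈ N, (if B (Nat.log 2 (nn (v 0) / gv v)) (Nat.log 2 (nn (v 1) / gv v))
        (Nat.log 2 (nn (v 2) / gv v)) then P v else 0) = ∑ g ∈ Icc 1 q, ∑ d ∈ Icc 1 q,
        (if g * d ∣ gv v then ((ArithmeticFunction.moebius d : ℤ) : ℂ) * f v g else 0) := by
      intro v hv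
      rw [TC3.mob (f v) q (gv v) (hgv v hv).1 (hgv v hv).2, hf]
    rw [sum_congr rfl e1, sum_comm]
    refine sum_congr rfl fun g _ => ?_
    rw [sum_comm]
    refine sum_congr rfl fun d _ => ?_
    rw [sum_filter, mul_sum]
    refine sum_congr rfl fun v _ => ?_
    split_ifs <;> simp
  have step2 : ∀ g ∈ Icc 1 q, ∀ d ∈ Icc 1 q, ‖∑ v ∈ N.filter (fun v => g * d ∣ gv v), f v g‖ ≤
      (K * q / (g * d)) ^ 3 := by
    intro g hg d hd
    rw [mem_Icc] at hg hd
    have e1 : ∑ v ∈ N.filter (fun v => g * d ∣ gv v), f v g =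
        ∑ v ∈ (univ : Finset (Fin 3 → ZMod q)).filter (fun v =>
          (∀ j, v j ∈ (univ : Finset (ZMod q)).filter (fun x => x ≠ 0 ∧ g * d ∣ nn x)) ∧
          (fun b : Fin 3 → ℕ => B (b 0) (b 1) (b 2)) (fun j => Nat.log 2 (nn (v j) / g))),
          ∏ j, G (c j) (t j) (v j) := by
      have e2 : ∀ v ∈ N.filter (fun v => g * d ∣ gv v), f v g =
          if B (Nat.log 2 (nn (v 0) / g)) (Nat.log 2 (nn (v 1) / g)) (Nat.log 2 (nn (v 2) / g))
          then P v else 0 := fun v _ => hf v g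
      rw [sum_congr rfl e2, ← sum_filter, filter_filter]
      refine sum_congr ?_ fun v _ => hP v
      ext v
      simp only [hN, mem_filter, mem_univ, true_and, gv, Nat.dvd_gcd_iff, Fin.forall_fin_succ,
        Fin.succ_zero_eq_one, Fin.succ_one_eq_two, IsEmpty.forall_iff, and_true]
      tauto
    rw [e1]
    have hb := TC3.boxes ((univ : Finset (ZMod q)).filter (fun x => x ≠ 0 ∧ g * d ∣ nn x))
      (fun x => Nat.log 2 (nn x / g)) (range (La q + 1)) (by
        intro x _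
        rw [mem_range, Nat.lt_succ_iff]
        exact Nat.log_mono_right ((Nat.div_le_self _ _).trans (TC3.nn_le_q x)))
      (fun j : Fin 3 => G (c j) (t j)) (fun b : Fin 3 → ℕ => B (b 0) (b 1) (b 2))
    refine le_trans (le_of_eq ?_) (hb.trans ?_)
    · congr 1
      refine sum_congr ?_ fun _ _ => rfl
      ext v
      simp only [mem_filter, mem_univ, true_and]
    have h4 : ∀ j : Fin 3, ∑ b ∈ range (La q + 1),
        ‖∑ x ∈ ((univ : Finset (ZMod q)).filter (fun x => x ≠ 0 ∧ g * d ∣ nn x)).filter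
          (fun x => Nat.log 2 (nn x / g) = b), G (c j) (t j) x‖ ≤ K * q / (g * d) := by
      intro j
      have h5 := hker q hq h3 (c j) (t j) (ht j) g d hg.1 hd.1
      simp only [TC3.kernel_res h3] at h5
      exact h5
    calc ∏ j : Fin 3, ∑ b ∈ range (La q + 1),
        ‖∑ x ∈ ((univ : Finset (ZMod q)).filter (fun x => x ≠ 0 ∧ g * d ∣ nn x)).filter
          (fun x => Nat.log 2 (nn x / g) = b), G (c j) (t j) x‖
        ≤ ∏ _j : Fin 3, K * q / (g * d) :=
          prod_le_prod (fun j _ => sum_nonneg fun b _ => norm_nonneg _) fun j _ => h4 j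
      _ = (K * q / (g * d)) ^ 3 := by rw [prod_const, card_univ, Fintype.card_fin]
  rw [step1]
  refine (norm_sum_le _ _).trans ?_
  calc ∑ g ∈ Icc 1 q, ‖∑ d ∈ Icc 1 q, ((ArithmeticFunction.moebius d : ℤ) : ℂ) *
        ∑ v ∈ N.filter (fun v => g * d ∣ gv v), f v g‖
      ≤ ∑ g ∈ Icc 1 q, ∑ d ∈ Icc 1 q, (K * q / (g * d)) ^ 3 := by
        refine sum_le_sum fun g hg => ?_
        refine (norm_sum_le _ _).trans (sum_le_sum fun d hd => ?_)
        rw [norm_mul]
        refine (mul_le_of_le_one_left (norm_nonneg _) ?_).trans (step2 g hg d hd)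
        rw [Complex.norm_intCast]
        exact_mod_cast ArithmeticFunction.abs_moebius_le_one
    _ = (K * q) ^ 3 * ((∑ g ∈ Icc 1 q, (1 : ℝ) / (g : ℝ) ^ 3) * ∑ d ∈ Icc 1 q, (1 : ℝ) / (d : ℝ) ^ 3) := by
        rw [sum_mul_sum, mul_sum]
        refine sum_congr rfl fun g _ => ?_
        rw [mul_sum]
        refine sum_congr rfl fun d _ => ?_
        rw [div_pow, mul_pow (g : ℝ)]
        ring
    _ ≤ (K * q) ^ 3 * (2 * 2) := by
        refine mul_le_mul_of_nonneg_left ?_ (by positivity)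
        exact mul_le_mul (TC3.cube_sum q) (TC3.cube_sum q) (by positivity) (by norm_num)
    _ = K ^ 3 * 4 * (q : ℝ) ^ 3 := by ring

end Pool.Agent.H935R2.PS
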